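import Mathlib

set_option autoImplicit false
set_option linter.unusedSectionVars false

/-!
Over every field `F` there is a six-dimensional unital (nonassociative) algebra with basis
`1, x, y, s, u, w` and products `x x = s`, `y x = u`, `s y = y s = w`, `x u = u x = w` (all other
products of `x, y, s, u, w` being zero, in particular `x y = 0`) which is right-alternative,
centrally essential and not alternative.
-/

namespace Pool.Agent.Results.MP_bbc03c_al.CentrallyEssential

universe u

/-- The associative center. -/
def assocCenter (R : Type u) [NonAssocRing R] : Set R :=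
  {x | ∀ a b : R, (x * a) * b = x * (a * b) ∧ (a * x) * b = a * (x * b) ∧
    (a * b) * x = a * (b * x)}

/-- The commutative center. -/
def commCenter (R : Type u) [NonAssocRing R] : Set R := {x | ∀ a : R, x * a = a * x}

/-- The center. -/
def center (R : Type u) [NonAssocRing R] : Set R := assocCenter R ∩ commCenter R

/-- `Z(R) r ∩ Z(R) ≠ 0` for every nonzero `r`. -/
def IsCentrallyEssential (R : Type u) [NonAssocRing R] : Prop :=
  ∀ r : R, r ≠ 0 → ∃ z ∈ center R, z * r ∈ center R ∧ z * r ≠ 0

/-- `(a, b, b) = 0` for all `a, b`. -/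
def IsRightAlternative (R : Type u) [NonAssocRing R] : Prop :=
  ∀ a b : R, (a * b) * b = a * (b * b)

/-- `(a, a, b) = 0` and `(a, b, b) = 0` for all `a, b`. -/
def IsAlternative (R : Type u) [NonAssocRing R] : Prop :=
  (∀ a b : R, (a * a) * b = a * (a * b)) ∧ ∀ a b : R, (a * b) * b = a * (b * b)

/-- The six-dimensional algebra. The coordinates are those with respect to `1, x, y, s, u, w`. -/
def Alg (F : Type u) : Type u := F × F × F × F × F × F

variable (F : Type u) [Field F]

instance : AddCommGroup (Alg F) := inferInstanceAs (AddCommGroup (F × F × F × F × F × F))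

instance : Module F (Alg F) := inferInstanceAs (Module F (F × F × F × F × F × F))

variable {F}

/-- The element with given coordinates. -/
def mk (a x y s u w : F) : Alg F := (a, x, y, s, u, w)

/-- The coordinate at `1`. -/
def Alg.a (x : Alg F) : F := x.1

/-- The coordinate at `x`. -/
def Alg.x (x : Alg F) : F := x.2.1

/-- The coordinate at `y`. -/
def Alg.y (x : Alg F) : F := x.2.2.1

/-- The coordinate at `s`. -/
def Alg.s (x : Alg F) : F := x.2.2.2.1

/-- The coordinate at `u`. -/
def Alg.u (x : Alg F) : F := x.2.2.2.2.1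

/-- The coordinate at `w`. -/
def Alg.w (x : Alg F) : F := x.2.2.2.2.2

@[simp] theorem mk_a (a x y s u w : F) : (mk a x y s u w).a = a := rfl
@[simp] theorem mk_x (a x y s u w : F) : (mk a x y s u w).x = x := rfl
@[simp] theorem mk_y (a x y s u w : F) : (mk a x y s u w).y = y := rfl
@[simp] theorem mk_s (a x y s u w : F) : (mk a x y s u w).s = s := rfl
@[simp] theorem mk_u (a x y s u w : F) : (mk a x y s u w).u = u := rfl
@[simp] theorem mk_w (a x y s u w : F) : (mk a x y s u w).w = w := rfl

theorem Alg.ext' {p q : Alg F} (h1 : p.a = q.a) (h2 : p.x = q.x) (h3 : p.y = q.y)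
    (h4 : p.s = q.s) (h5 : p.u = q.u) (h6 : p.w = q.w) : p = q :=
  Prod.ext h1 (Prod.ext h2 (Prod.ext h3 (Prod.ext h4 (Prod.ext h5 h6))))

@[simp] theorem zero_a : (0 : Alg F).a = 0 := rfl
@[simp] theorem zero_x : (0 : Alg F).x = 0 := rfl
@[simp] theorem zero_y : (0 : Alg F).y = 0 := rfl
@[simp] theorem zero_s : (0 : Alg F).s = 0 := rfl
@[simp] theorem zero_u : (0 : Alg F).u = 0 := rfl
@[simp] theorem zero_w : (0 : Alg F).w = 0 := rfl
@[simp] theorem add_a (p q : Alg F) : (p + q).a = p.a + q.a := rfl
@[simp] theorem add_x (p q : Alg F) : (p + q).x = p.x + q.x := rfl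
@[simp] theorem add_y (p q : Alg F) : (p + q).y = p.y + q.y := rfl
@[simp] theorem add_s (p q : Alg F) : (p + q).s = p.s + q.s := rfl
@[simp] theorem add_u (p q : Alg F) : (p + q).u = p.u + q.u := rfl
@[simp] theorem add_w (p q : Alg F) : (p + q).w = p.w + q.w := rfl
@[simp] theorem smul_a (t : F) (p : Alg F) : (t • p).a = t * p.a := rfl
@[simp] theorem smul_x (t : F) (p : Alg F) : (t • p).x = t * p.x := rfl
@[simp] theorem smul_y (t : F) (p : Alg F) : (t • p).y = t * p.y := rfl
@[simp] theorem smul_s (t : F) (p : Alg F) : (t • p).s = t * p.s := rfl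
@[simp] theorem smul_u (t : F) (p : Alg F) : (t • p).u = t * p.u := rfl
@[simp] theorem smul_w (t : F) (p : Alg F) : (t • p).w = t * p.w := rfl

instance : Mul (Alg F) :=
  ⟨fun p q => mk (p.a * q.a) (p.a * q.x + p.x * q.a) (p.a * q.y + p.y * q.a)
    (p.a * q.s + p.s * q.a + p.x * q.x) (p.a * q.u + p.u * q.a + p.y * q.x)
    (p.a * q.w + p.w * q.a + p.s * q.y + p.y * q.s + p.x * q.u + p.u * q.x)⟩

instance : One (Alg F) := ⟨mk 1 0 0 0 0 0⟩

@[simp] theorem one_a : (1 : Alg F).a = 1 := rfl
@[simp] theorem one_x : (1 : Alg F).x = 0 := rfl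
@[simp] theorem one_y : (1 : Alg F).y = 0 := rfl
@[simp] theorem one_s : (1 : Alg F).s = 0 := rfl
@[simp] theorem one_u : (1 : Alg F).u = 0 := rfl
@[simp] theorem one_w : (1 : Alg F).w = 0 := rfl
@[simp] theorem mul_a (p q : Alg F) : (p * q).a = p.a * q.a := rfl
@[simp] theorem mul_x (p q : Alg F) : (p * q).x = p.a * q.x + p.x * q.a := rfl
@[simp] theorem mul_y (p q : Alg F) : (p * q).y = p.a * q.y + p.y * q.a := rfl
@[simp] theorem mul_s (p q : Alg F) : (p * q).s = p.a * q.s + p.s * q.a + p.x * q.x := rfl
@[simp] theorem mul_u (p q : Alg F) : (p * q).u = p.a * q.u + p.u * q.a + p.y * q.x := rfl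
@[simp] theorem mul_w (p q : Alg F) :
    (p * q).w = p.a * q.w + p.w * q.a + p.s * q.y + p.y * q.s + p.x * q.u + p.u * q.x := rfl

instance : NonAssocRing (Alg F) :=
  { (inferInstance : AddCommGroup (Alg F)), (inferInstance : Mul (Alg F)),
    (inferInstance : One (Alg F)) with
    left_distrib := fun x y z => by apply Alg.ext' <;> simp <;> ring
    right_distrib := fun x y z => by apply Alg.ext' <;> simp <;> ring
    zero_mul := fun x => by apply Alg.ext' <;> simp
    mul_zero := fun x => by apply Alg.ext' <;> simp
    one_mul := fun x => by apply Alg.ext' <;> simp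
    mul_one := fun x => by apply Alg.ext' <;> simp }

instance : IsScalarTower F (Alg F) (Alg F) :=
  ⟨fun t x y => by simp only [smul_eq_mul]; apply Alg.ext' <;> simp <;> ring⟩

instance : SMulCommClass F (Alg F) (Alg F) :=
  ⟨fun t x y => by simp only [smul_eq_mul]; apply Alg.ext' <;> simp <;> ring⟩

theorem finrank_Alg : Module.finrank F (Alg F) = 6 := by
  have : Module.finrank F (F × F × F × F × F × F) = 6 := by simp
  exact this

/-- Elements without `x`- and `y`-coordinates are central. -/
theorem mem_center (p : Alg F) (hx : p.x = 0) (hy : p.y = 0) : p ∈ center (Alg F) := by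
  refine ⟨fun a b => ⟨?_, ?_, ?_⟩, fun a => ?_⟩ <;> apply Alg.ext' <;> simp [hx, hy] <;> ring

/-- Over every field `F` there is a unital not necessarily associative `F`-algebra of dimension `6`
which is right-alternative and centrally essential but not alternative. -/
theorem result (F : Type u) [Field F] :
    ∃ (R : Type u) (_ : NonAssocRing R) (_ : Module F R) (_ : IsScalarTower F R R)
      (_ : SMulCommClass F R R), Module.finrank F R = 6 ∧
      IsRightAlternative R ∧ IsCentrallyEssential R ∧ ¬ IsAlternative R := by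
  refine ⟨Alg F, inferInstance, inferInstance, inferInstance, inferInstance, finrank_Alg,
    ?_, ?_, ?_⟩
  · intro a b
    apply Alg.ext' <;> simp <;> ring
  · intro r hr
    by_cases ha : r.a = 0
    · by_cases hx : r.x = 0
      · by_cases hy : r.y = 0
        · refine ⟨1, mem_center _ rfl rfl, mem_center _ ?_ ?_, ?_⟩
          · simpa using hx
          · simpa using hy
          · rwa [one_mul]
        · refine ⟨mk 0 0 0 1 0 0, mem_center _ rfl rfl, mem_center _ (by simp) (by simp), ?_⟩
          intro h
          have h2 := congrArg Alg.w h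
          simp at h2
          exact hy h2
      · refine ⟨mk 0 0 0 0 1 0, mem_center _ rfl rfl, mem_center _ (by simp) (by simp), ?_⟩
        intro h
        have h2 := congrArg Alg.w h
        simp at h2
        exact hx h2
    · refine ⟨mk 0 0 0 0 0 1, mem_center _ rfl rfl, mem_center _ (by simp) (by simp), ?_⟩
      intro h
      have h2 := congrArg Alg.w h
      simp at h2
      exact ha h2
  · intro h
    have h1 := h.1 (mk 0 1 0 0 0 0) (mk 0 0 1 0 0 0)
    have h2 := congrArg Alg.w h1
    simp at h2

end Pool.Agent.Results.MP_bbc03c_al.CentrallyEssential
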